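import Pool.Agent.Helper41.FX.StK2

/-!
# Project FX, chapter K: the modules ZA and ZB (transfer along birational maps)
-/

set_option autoImplicit false

namespace Pool.Agent.Helper12.FX

open Pool.Agent.Helper72.KRF Pool.Agent.Helper72.FX Pool.Agent.Helper41.FX

noncomputable section

section gen

variable {A B : Type} [CommRing A] [Algebra ℂ A] [CommRing B] [Algebra ℂ B]

theorem kmap (f : A →ₐ[ℂ] B) (a b t : A) (p : MvPolynomial (Fin 3) ℂ) :
    f (MvPolynomial.aeval ![a, b, t] p) = MvPolynomial.aeval ![f a, f b, f t] p := by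
  have h := MvPolynomial.comp_aeval_apply (φ := f) ![a, b, t] p
  rw [h]
  congr 2
  funext i
  fin_cases i <;> rfl

theorem kx_map (f : A →ₐ[ℂ] B) (a b t : A) : f (kx a b t) = kx (f a) (f b) (f t) := kmap f a b t _
theorem ky_map (f : A →ₐ[ℂ] B) (a b t : A) : f (ky a b t) = ky (f a) (f b) (f t) := kmap f a b t _
theorem kz_map (f : A →ₐ[ℂ] B) (a b t : A) : f (kz a b t) = kz (f a) (f b) (f t) := kmap f a b t _

end gen

theorem zz_of_one {A : Type} [CommRing A] (I : Ideal A) (x : A) (h : ZZ A I 1) : ZZ A I x := by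
  intro Λ _ χ _ h0
  refine h Λ χ ?_ h0
  intro N _ _ _ _ h1
  have : Subsingleton N := ⟨fun u v => by
    have hu := h1 u
    have hv := h1 v
    rw [one_smul] at hu hv
    rw [hu, hv]⟩
  exact χ.of_subsingleton (gd_kil I) N

theorem zz_gen (hTRF : StTRF) (n : ℕ) (h1 : ZZ (MvPolynomial (Fin n) ℂ) ⊥ 1) (w : Fin n → Fin 10)
    (IC : Ideal P0) (x : MvPolynomial (Fin n) ℂ)
    (hgen : ∀ i : Fin 10, ∃ (k : ℕ) (b : MvPolynomial (Fin n) ℂ),
      (MvPolynomial.aeval (fun i => v10 (w i)) : MvPolynomial (Fin n) ℂ →ₐ[ℂ] P0) x ^ k * v10 i -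
      (MvPolynomial.aeval (fun i => v10 (w i)) : MvPolynomial (Fin n) ℂ →ₐ[ℂ] P0) b ∈ IC)
    (ψ : P0 →ₐ[ℂ] FractionRing (MvPolynomial (Fin n) ℂ)) (hψ : ∀ c ∈ IC, ψ c = 0)
    (hw : ∀ i : Fin n, ψ (v10 (w i)) =
      algebraMap (MvPolynomial (Fin n) ℂ) (FractionRing (MvPolynomial (Fin n) ℂ)) (MvPolynomial.X i)) :
    ZZ P0 IC ((MvPolynomial.aeval (fun i => v10 (w i)) : MvPolynomial (Fin n) ℂ →ₐ[ℂ] P0) x) := by
  set φ : MvPolynomial (Fin n) ℂ →ₐ[ℂ] P0 := MvPolynomial.aeval (fun i => v10 (w i)) with hφ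
  have hcomp : ∀ b : MvPolynomial (Fin n) ℂ, ψ (φ b) =
      algebraMap (MvPolynomial (Fin n) ℂ) (FractionRing (MvPolynomial (Fin n) ℂ)) b := by
    have h : ψ.comp φ = IsScalarTower.toAlgHom ℂ (MvPolynomial (Fin n) ℂ)
        (FractionRing (MvPolynomial (Fin n) ℂ)) := by
      apply MvPolynomial.algHom_ext
      intro i
      simp only [AlgHom.comp_apply, hφ, MvPolynomial.aeval_X, hw, IsScalarTower.toAlgHom_apply]
    intro b
    have := congrArg (fun g => g b) h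
    simpa using this
  refine hTRF (MvPolynomial (Fin n) ℂ) P0 φ.toRingHom ⊥ IC x ?_ ?_ ?_ (zz_of_one _ _ h1)
  · rw [Ideal.map_bot]; exact bot_le
  · intro c
    change ∃ (k : ℕ) (b : MvPolynomial (Fin n) ℂ), φ x ^ k * c - φ b ∈ IC
    induction c using MvPolynomial.induction_on with
    | C z =>
      refine ⟨0, MvPolynomial.C z, ?_⟩
      have : φ (MvPolynomial.C z) = MvPolynomial.C z := by
        rw [hφ, MvPolynomial.aeval_C]; rfl
      rw [this, pow_zero, one_mul, sub_self]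
      exact IC.zero_mem
    | add p q hp hq =>
      obtain ⟨k, b, hb⟩ := hp
      obtain ⟨l, c, hc⟩ := hq
      refine ⟨k + l, x ^ l * b + x ^ k * c, ?_⟩
      have e : φ x ^ (k + l) * (p + q) - φ (x ^ l * b + x ^ k * c) =
          φ x ^ l * (φ x ^ k * p - φ b) + φ x ^ k * (φ x ^ l * q - φ c) := by
        rw [map_add, map_mul, map_mul, map_pow, map_pow, pow_add]; ring
      rw [e]
      exact IC.add_mem (IC.mul_mem_left _ hb) (IC.mul_mem_left _ hc)
    | mul_X p i hp =>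
      obtain ⟨k, b, hb⟩ := hp
      obtain ⟨l, c, hc⟩ := hgen i
      refine ⟨k + l, b * c, ?_⟩
      have e : φ x ^ (k + l) * (p * MvPolynomial.X i) - φ (b * c) =
          (φ x ^ l * MvPolynomial.X i) * (φ x ^ k * p - φ b) +
            φ b * (φ x ^ l * MvPolynomial.X i - φ c) := by
        rw [map_mul, pow_add]; ring
      rw [e]
      exact IC.add_mem (IC.mul_mem_left _ hb) (IC.mul_mem_left _ hc)
  · intro b hb
    refine ⟨0, ?_⟩
    have h0 : ψ (φ b) = 0 := hψ _ hb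
    rw [hcomp] at h0
    have : b = 0 := by
      apply IsFractionRing.injective (MvPolynomial (Fin n) ℂ) (FractionRing (MvPolynomial (Fin n) ℂ))
      rw [h0, map_zero]
    rw [this, mul_zero]
    exact Ideal.zero_mem _

section gen2

variable {A B : Type} [CommRing A] [Algebra ℂ A] [CommRing B] [Algebra ℂ B]

theorem nu_map (f : A →ₐ[ℂ] B) (a b t : A) : f (nu a b t) = nu (f a) (f b) (f t) := by
  simp only [nu, map_add, map_sub, map_mul, map_pow, map_ofNat]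

theorem kappa_map (f : A →ₐ[ℂ] B) (a b t : A) : f (kappa a b t) = kappa (f a) (f b) (f t) := by
  simp [kappa, kx_map, ky_map, kz_map]

end gen2

/-! ### ZA -/

abbrev BA : Type := MvPolynomial (Fin 7) ℂ
abbrev KA : Type := FractionRing BA

def wA : Fin 7 → Fin 10 := ![0, 1, 2, 4, 5, 7, 9]
def xA (i : Fin 7) : BA := MvPolynomial.X i
def nuA : BA := nu (xA 0) (xA 1) (xA 2)
def qA : BA := 1 + xA 2 * nuA * kx (xA 0) (xA 1) (xA 2)
def yA : BA := xA 4 * qA
def fA : BA →ₐ[ℂ] P0 := MvPolynomial.aeval (fun i => v10 (wA i))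

theorem fA_x (i : Fin 7) : fA (xA i) = v10 (wA i) := MvPolynomial.aeval_X _ _

theorem fA_nu : fA nuA = pnu := by
  rw [nuA, nu_map, fA_x, fA_x, fA_x]; rfl

theorem fA_q : fA qA = pA := by
  rw [qA, map_add, map_mul, map_mul, map_one, fA_nu, kx_map, fA_x, fA_x, fA_x]; rfl

theorem fA_y : fA yA = v10 5 * pA := by
  rw [yA, map_mul, fA_q, fA_x]; rfl

/-- image of a variable in the fraction field -/
def zA (i : Fin 7) : KA := algebraMap BA KA (xA i)
def kA : BA →ₐ[ℂ] KA := IsScalarTower.toAlgHom ℂ BA KA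

theorem kA_apply (b : BA) : kA b = algebraMap BA KA b := rfl

def nA : KA := nu (zA 0) (zA 1) (zA 2)
def rA : KA := 1 + zA 2 * nA * kx (zA 0) (zA 1) (zA 2)

theorem kA_q : algebraMap BA KA qA = rA := by
  rw [← kA_apply, qA, map_add, map_mul, map_mul, map_one, nuA, nu_map, kx_map]; rfl

theorem qA_ne : qA ≠ 0 := by
  intro h
  have h2 : MvPolynomial.constantCoeff qA = (0 : ℂ) := by rw [h, map_zero]
  rw [qA, map_add, map_mul, map_mul, map_one, xA, MvPolynomial.constantCoeff_X] at h2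
  simp at h2

theorem rA_ne : rA ≠ 0 := by
  rw [← kA_q]
  intro h
  exact qA_ne (IsFractionRing.injective BA KA (by rw [h, map_zero]))

theorem zA_ne (i : Fin 7) : zA i ≠ 0 := by
  intro h
  exact MvPolynomial.X_ne_zero i (IsFractionRing.injective BA KA (by rw [map_zero]; exact h))

def YA : KA := (zA 5 * (1 - zA 2 * nA * ky (zA 0) (zA 1) (zA 2)) +
  nA / zA 4 * zA 3 * kappa (zA 0) (zA 1) (zA 2) + 2 * nA * kz (zA 0) (zA 1) (zA 2) * zA 6) / rA

def gA : P0 →ₐ[ℂ] KA := MvPolynomial.aeval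
  ![zA 0, zA 1, zA 2, 0, zA 3, zA 4, nA / zA 4, zA 5, YA, zA 6]

theorem gA0 : gA (v10 0) = zA 0 := MvPolynomial.aeval_X _ _
theorem gA1 : gA (v10 1) = zA 1 := MvPolynomial.aeval_X _ _
theorem gA2 : gA (v10 2) = zA 2 := MvPolynomial.aeval_X _ _
theorem gA3 : gA (v10 3) = 0 := MvPolynomial.aeval_X _ _
theorem gA4 : gA (v10 4) = zA 3 := MvPolynomial.aeval_X _ _
theorem gA5 : gA (v10 5) = zA 4 := MvPolynomial.aeval_X _ _
theorem gA6 : gA (v10 6) = nA / zA 4 := MvPolynomial.aeval_X _ _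
theorem gA7 : gA (v10 7) = zA 5 := MvPolynomial.aeval_X _ _
theorem gA8 : gA (v10 8) = YA := MvPolynomial.aeval_X _ _
theorem gA9 : gA (v10 9) = zA 6 := MvPolynomial.aeval_X _ _

theorem gA_e1 : gA e1 = 0 := by
  have h4 := zA_ne 4
  rw [e1, E1, map_sub, map_sub, map_mul, map_mul, nu_map, gA0, gA1, gA2, gA3, gA4, gA5, gA6]
  change nA - 0 * zA 3 - zA 4 * (nA / zA 4) = 0
  field_simp
  ring

theorem gA_e2 : gA e2 = 0 := by
  have h4 := zA_ne 4
  have hr := rA_ne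
  have hY : rA * YA = zA 5 * (1 - zA 2 * nA * ky (zA 0) (zA 1) (zA 2)) +
      nA / zA 4 * zA 3 * kappa (zA 0) (zA 1) (zA 2) + 2 * nA * kz (zA 0) (zA 1) (zA 2) * zA 6 := by
    rw [YA]; field_simp
  have hm : zA 4 * (nA / zA 4) = nA := by field_simp
  have e : gA e2 = -((nA / zA 4) * zA 3 * kappa (zA 0) (zA 1) (zA 2)) + (YA - zA 5) +
      zA 4 * (zA 2 * (nA / zA 4) * kx (zA 0) (zA 1) (zA 2) * YA +
      zA 2 * (nA / zA 4) * ky (zA 0) (zA 1) (zA 2) * zA 5 + zA 2 * 0 * zA 5 * YA -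
      2 * (nA / zA 4) * kz (zA 0) (zA 1) (zA 2) * zA 6 - 0 * zA 6 ^ 2) := by
    rw [e2, E2]
    simp only [map_add, map_sub, map_mul, map_neg, map_pow, map_ofNat, kappa_map, kx_map, ky_map,
      kz_map, gA0, gA1, gA2, gA3, gA4, gA5, gA6, gA7, gA8, gA9]
  rw [e]
  rw [rA] at hY
  linear_combination hY + (zA 2 * kx (zA 0) (zA 1) (zA 2) * YA + zA 2 * ky (zA 0) (zA 1) (zA 2) * zA 5 -
    2 * kz (zA 0) (zA 1) (zA 2) * zA 6) * hm

theorem gA_w (i : Fin 7) : gA (v10 (wA i)) = zA i := by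
  fin_cases i
  · exact gA0
  · exact gA1
  · exact gA2
  · exact gA4
  · exact gA5
  · exact gA7
  · exact gA9

theorem hZA (hTRF : StTRF) (hHOM : StHOM) (hPMX : StPMX) (hZT : StZT) (hZP : StZP) : StZA := by
  have h1 := (hZP hHOM hPMX hZT).1 7
  have hm1 : e1 ∈ Ideal.span {e1, e2, v10 3} := Ideal.subset_span (by simp)
  have hm2 : e2 ∈ Ideal.span {e1, e2, v10 3} := Ideal.subset_span (by simp)
  have hm3 : v10 3 ∈ Ideal.span {e1, e2, v10 3} := Ideal.subset_span (by simp)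
  have h := zz_gen hTRF 7 h1 wA (Ideal.span {e1, e2, v10 3}) yA ?_ gA ?_ ?_
  · have e : (MvPolynomial.aeval (fun i => v10 (wA i)) : BA →ₐ[ℂ] P0) yA = v10 5 * pA := fA_y
    rw [e] at h
    exact h
  · have h7 : ∀ j : Fin 7, ∃ (k : ℕ) (b : BA), fA yA ^ k * v10 (wA j) - fA b ∈
        Ideal.span {e1, e2, v10 3} := by
      intro j
      refine ⟨0, xA j, ?_⟩
      rw [fA_x, pow_zero, one_mul, sub_self]
      exact Ideal.zero_mem _
    change ∀ i : Fin 10, ∃ (k : ℕ) (b : BA), fA yA ^ k * v10 i - fA b ∈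
        Ideal.span {e1, e2, v10 3}
    intro i
    fin_cases i
    · exact h7 0
    · exact h7 1
    · exact h7 2
    · refine ⟨0, 0, ?_⟩
      rw [map_zero, pow_zero, one_mul, sub_zero]
      exact hm3
    · exact h7 3
    · exact h7 4
    · refine ⟨1, nuA * qA, ?_⟩
      have e : fA yA ^ 1 * v10 6 - fA (nuA * qA) = -pA * e1 + (-pA * v10 4) * v10 3 := by
        rw [map_mul, fA_nu, fA_q, fA_y, pow_one]
        rw [e1, E1, ← pnu]
        ring
      change fA yA ^ 1 * v10 6 - fA (nuA * qA) ∈ _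
      rw [e]
      exact Ideal.add_mem _ (Ideal.mul_mem_left _ _ hm1) (Ideal.mul_mem_left _ _ hm3)
    · exact h7 5
    · refine ⟨1, xA 4 * (xA 5 * (1 - xA 2 * nuA * ky (xA 0) (xA 1) (xA 2)) +
        2 * nuA * kz (xA 0) (xA 1) (xA 2) * xA 6) + nuA * xA 3 * kappa (xA 0) (xA 1) (xA 2), ?_⟩
      change fA yA ^ 1 * v10 8 - fA _ ∈ _
      have e : fA yA ^ 1 * v10 8 - fA (xA 4 * (xA 5 * (1 - xA 2 * nuA * ky (xA 0) (xA 1) (xA 2)) +
          2 * nuA * kz (xA 0) (xA 1) (xA 2) * xA 6) + nuA * xA 3 * kappa (xA 0) (xA 1) (xA 2)) =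
          (v10 5 * v10 2 * kx (v10 0) (v10 1) (v10 2) * v10 8 +
            v10 5 * v10 2 * ky (v10 0) (v10 1) (v10 2) * v10 7 -
            2 * v10 5 * kz (v10 0) (v10 1) (v10 2) * v10 9 -
            v10 4 * kappa (v10 0) (v10 1) (v10 2)) * e1 + v10 5 * e2 +
          (-(v10 5 ^ 2 * (v10 2 * v10 7 * v10 8 - v10 9 ^ 2)) + v10 4 *
            (v10 5 * v10 2 * kx (v10 0) (v10 1) (v10 2) * v10 8 +
            v10 5 * v10 2 * ky (v10 0) (v10 1) (v10 2) * v10 7 -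
            2 * v10 5 * kz (v10 0) (v10 1) (v10 2) * v10 9 -
            v10 4 * kappa (v10 0) (v10 1) (v10 2))) * v10 3 := by
        rw [pow_one, fA_y]
        simp only [map_add, map_sub, map_mul, map_one, map_ofNat, kappa_map, ky_map, kz_map, fA_nu, fA_x]
        change v10 5 * pA * v10 8 - (v10 5 * (v10 7 * (1 - v10 2 * pnu *
          ky (v10 0) (v10 1) (v10 2)) + 2 * pnu * kz (v10 0) (v10 1) (v10 2) * v10 9) +
          pnu * v10 4 * kappa (v10 0) (v10 1) (v10 2)) = _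
        rw [e1, E1, ← pnu, e2, E2, pA]
        ring
      rw [e]
      exact Ideal.add_mem _ (Ideal.add_mem _ (Ideal.mul_mem_left _ _ hm1)
        (Ideal.mul_mem_left _ _ hm2)) (Ideal.mul_mem_left _ _ hm3)
    · exact h7 6
  · intro c hc
    have hle : Ideal.span {e1, e2, v10 3} ≤ RingHom.ker gA := by
      rw [Ideal.span_le]
      intro y hy
      simp only [Set.mem_insert_iff, Set.mem_singleton_iff] at hy
      rcases hy with rfl | rfl | rfl
      · exact gA_e1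
      · exact gA_e2
      · exact gA3
    exact hle hc
  · exact gA_w

/-! ### ZB -/

abbrev BB : Type := MvPolynomial (Fin 8) ℂ
abbrev KB : Type := FractionRing BB

def wB : Fin 8 → Fin 10 := ![0, 1, 2, 3, 5, 6, 7, 9]
def xB (i : Fin 8) : BB := MvPolynomial.X i
def nuB : BB := nu (xB 0) (xB 1) (xB 2)
def qB : BB := 1 + xB 2 * xB 4 * (xB 5 * kx (xB 0) (xB 1) (xB 2) + xB 3 * xB 6)
def yB : BB := xB 3 * qB
def fB : BB →ₐ[ℂ] P0 := MvPolynomial.aeval (fun i => v10 (wB i))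

theorem fB_x (i : Fin 8) : fB (xB i) = v10 (wB i) := MvPolynomial.aeval_X _ _

theorem fB_nu : fB nuB = pnu := by
  rw [nuB, nu_map, fB_x, fB_x, fB_x]; rfl

theorem fB_q : fB qB = pD := by
  rw [qB, map_add, map_mul, map_mul, map_one, map_add, map_mul, map_mul, kx_map]
  simp only [fB_x]
  rfl

theorem fB_y : fB yB = v10 3 * pD := by
  rw [yB, map_mul, fB_q, fB_x]; rfl

def zB (i : Fin 8) : KB := algebraMap BB KB (xB i)
def kB : BB →ₐ[ℂ] KB := IsScalarTower.toAlgHom ℂ BB KB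

theorem kB_apply (b : BB) : kB b = algebraMap BB KB b := rfl

def nB : KB := nu (zB 0) (zB 1) (zB 2)
def rB : KB := 1 + zB 2 * zB 4 * (zB 5 * kx (zB 0) (zB 1) (zB 2) + zB 3 * zB 6)

theorem kB_q : algebraMap BB KB qB = rB := by
  rw [← kB_apply, qB, map_add, map_mul, map_mul, map_one, map_add, map_mul, map_mul, kx_map]; rfl

theorem qB_ne : qB ≠ 0 := by
  intro h
  have h2 : MvPolynomial.constantCoeff qB = (0 : ℂ) := by rw [h, map_zero]
  rw [qB, map_add, map_mul, map_mul, map_one, xB, MvPolynomial.constantCoeff_X] at h2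
  simp at h2

theorem rB_ne : rB ≠ 0 := by
  rw [← kB_q]
  intro h
  exact qB_ne (IsFractionRing.injective BB KB (by rw [h, map_zero]))

theorem zB_ne (i : Fin 8) : zB i ≠ 0 := by
  intro h
  exact MvPolynomial.X_ne_zero i (IsFractionRing.injective BB KB (by rw [map_zero]; exact h))

def NB : KB := (nB - zB 4 * zB 5) / zB 3

def YB : KB := (zB 5 * NB * kappa (zB 0) (zB 1) (zB 2) + zB 6 - zB 4 *
  (zB 2 * zB 5 * ky (zB 0) (zB 1) (zB 2) * zB 6 - 2 * zB 5 * kz (zB 0) (zB 1) (zB 2) * zB 7 -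
    zB 3 * zB 7 ^ 2)) / rB

def gB : P0 →ₐ[ℂ] KB := MvPolynomial.aeval
  ![zB 0, zB 1, zB 2, zB 3, NB, zB 4, zB 5, zB 6, YB, zB 7]

theorem gB0 : gB (v10 0) = zB 0 := MvPolynomial.aeval_X _ _
theorem gB1 : gB (v10 1) = zB 1 := MvPolynomial.aeval_X _ _
theorem gB2 : gB (v10 2) = zB 2 := MvPolynomial.aeval_X _ _
theorem gB3 : gB (v10 3) = zB 3 := MvPolynomial.aeval_X _ _
theorem gB4 : gB (v10 4) = NB := MvPolynomial.aeval_X _ _
theorem gB5 : gB (v10 5) = zB 4 := MvPolynomial.aeval_X _ _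
theorem gB6 : gB (v10 6) = zB 5 := MvPolynomial.aeval_X _ _
theorem gB7 : gB (v10 7) = zB 6 := MvPolynomial.aeval_X _ _
theorem gB8 : gB (v10 8) = YB := MvPolynomial.aeval_X _ _
theorem gB9 : gB (v10 9) = zB 7 := MvPolynomial.aeval_X _ _

theorem gB_e1 : gB e1 = 0 := by
  have h3 := zB_ne 3
  rw [e1, E1, map_sub, map_sub, map_mul, map_mul, nu_map, gB0, gB1, gB2, gB3, gB4, gB5, gB6]
  change nB - zB 3 * NB - zB 4 * zB 5 = 0
  rw [NB]
  field_simp
  ring

theorem gB_e2 : gB e2 = 0 := by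
  have hr := rB_ne
  have hY : rB * YB = zB 5 * NB * kappa (zB 0) (zB 1) (zB 2) + zB 6 - zB 4 *
      (zB 2 * zB 5 * ky (zB 0) (zB 1) (zB 2) * zB 6 - 2 * zB 5 * kz (zB 0) (zB 1) (zB 2) * zB 7 -
      zB 3 * zB 7 ^ 2) := by
    rw [YB]; field_simp
  have e : gB e2 = -(zB 5 * NB * kappa (zB 0) (zB 1) (zB 2)) + (YB - zB 6) +
      zB 4 * (zB 2 * zB 5 * kx (zB 0) (zB 1) (zB 2) * YB +
      zB 2 * zB 5 * ky (zB 0) (zB 1) (zB 2) * zB 6 + zB 2 * zB 3 * zB 6 * YB -
      2 * zB 5 * kz (zB 0) (zB 1) (zB 2) * zB 7 - zB 3 * zB 7 ^ 2) := by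
    rw [e2, E2]
    simp only [map_add, map_sub, map_mul, map_neg, map_pow, map_ofNat, kappa_map, kx_map, ky_map,
      kz_map, gB0, gB1, gB2, gB3, gB4, gB5, gB6, gB7, gB8, gB9]
  rw [e]
  rw [rB] at hY
  linear_combination hY

theorem gB_w (i : Fin 8) : gB (v10 (wB i)) = zB i := by
  fin_cases i
  · exact gB0
  · exact gB1
  · exact gB2
  · exact gB3
  · exact gB5
  · exact gB6
  · exact gB7
  · exact gB9

theorem hZB (hTRF : StTRF) (hHOM : StHOM) (hPMX : StPMX) (hZT : StZT) (hZP : StZP) : StZB := by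
  have h1 := (hZP hHOM hPMX hZT).1 8
  have hm1 : e1 ∈ Ideal.span {e1, e2} := Ideal.subset_span (by simp)
  have hm2 : e2 ∈ Ideal.span {e1, e2} := Ideal.subset_span (by simp)
  have h := zz_gen hTRF 8 h1 wB (Ideal.span {e1, e2}) yB ?_ gB ?_ ?_
  · have e : (MvPolynomial.aeval (fun i => v10 (wB i)) : BB →ₐ[ℂ] P0) yB = v10 3 * pD := fB_y
    rw [e] at h
    exact h
  · have h8 : ∀ j : Fin 8, ∃ (k : ℕ) (b : BB), fB yB ^ k * v10 (wB j) - fB b ∈
        Ideal.span {e1, e2} := by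
      intro j
      refine ⟨0, xB j, ?_⟩
      rw [fB_x, pow_zero, one_mul, sub_self]
      exact Ideal.zero_mem _
    change ∀ i : Fin 10, ∃ (k : ℕ) (b : BB), fB yB ^ k * v10 i - fB b ∈
        Ideal.span {e1, e2}
    intro i
    fin_cases i
    · exact h8 0
    · exact h8 1
    · exact h8 2
    · exact h8 3
    · refine ⟨1, qB * (nuB - xB 4 * xB 5), ?_⟩
      have e : fB yB ^ 1 * v10 4 - fB (qB * (nuB - xB 4 * xB 5)) = -pD * e1 := by
        rw [map_mul, map_sub, map_mul, fB_nu, fB_q, fB_y, pow_one]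
        simp only [fB_x]
        change v10 3 * pD * v10 4 - pD * (pnu - v10 5 * v10 6) = _
        rw [e1, E1, ← pnu]
        ring
      change fB yB ^ 1 * v10 4 - fB (qB * (nuB - xB 4 * xB 5)) ∈ _
      rw [e]
      exact Ideal.mul_mem_left _ _ hm1
    · exact h8 4
    · exact h8 5
    · exact h8 6
    · refine ⟨1, xB 5 * (nuB - xB 4 * xB 5) * kappa (xB 0) (xB 1) (xB 2) + xB 3 * xB 6 -
        xB 3 * xB 4 * (xB 2 * xB 5 * ky (xB 0) (xB 1) (xB 2) * xB 6 -
        2 * xB 5 * kz (xB 0) (xB 1) (xB 2) * xB 7 - xB 3 * xB 7 ^ 2), ?_⟩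
      change fB yB ^ 1 * v10 8 - fB _ ∈ _
      have e : fB yB ^ 1 * v10 8 - fB (xB 5 * (nuB - xB 4 * xB 5) * kappa (xB 0) (xB 1) (xB 2) +
          xB 3 * xB 6 - xB 3 * xB 4 * (xB 2 * xB 5 * ky (xB 0) (xB 1) (xB 2) * xB 6 -
          2 * xB 5 * kz (xB 0) (xB 1) (xB 2) * xB 7 - xB 3 * xB 7 ^ 2)) =
          (-(v10 6 * kappa (v10 0) (v10 1) (v10 2))) * e1 + v10 3 * e2 := by
        rw [pow_one, fB_y]
        simp only [map_add, map_sub, map_mul, map_pow, map_ofNat, kappa_map, ky_map, kz_map,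
          fB_nu, fB_x]
        change v10 3 * pD * v10 8 - (v10 6 * (pnu - v10 5 * v10 6) *
          kappa (v10 0) (v10 1) (v10 2) + v10 3 * v10 7 - v10 3 * v10 5 * (v10 2 * v10 6 *
          ky (v10 0) (v10 1) (v10 2) * v10 7 - 2 * v10 6 * kz (v10 0) (v10 1) (v10 2) * v10 9 -
          v10 3 * v10 9 ^ 2)) = _
        rw [e1, E1, ← pnu, e2, E2, pD]
        ring
      rw [e]
      exact Ideal.add_mem _ (Ideal.mul_mem_left _ _ hm1) (Ideal.mul_mem_left _ _ hm2)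
    · exact h8 7
  · intro c hc
    have hle : Ideal.span {e1, e2} ≤ RingHom.ker gB := by
      rw [Ideal.span_le]
      intro y hy
      simp only [Set.mem_insert_iff, Set.mem_singleton_iff] at hy
      rcases hy with rfl | rfl
      · exact gB_e1
      · exact gB_e2
    exact hle hc
  · exact gB_w

end

end Pool.Agent.Helper12.FX
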