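import Pool.Agent.Helper12.FX.M_ZA

/-!
Module ZB of the project FX: the statement `StZB` from `StTRF`, `StHOM`, `StPMX`, `StZT`, `StZP`.
The proof is in `M_ZA`, theorem `Pool.Agent.Helper12.FX.hZB`.
-/

namespace Pool.Agent.Helper12.FX

open Pool.Agent.Helper72.KRF Pool.Agent.Helper72.FX Pool.Agent.Helper41.FX

theorem hZB2 (hTRF : StTRF) (hHOM : StHOM) (hPMX : StPMX) (hZT : StZT) (hZP : StZP) : StZB :=
  hZB hTRF hHOM hPMX hZT hZP

end Pool.Agent.Helper12.FX
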